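import Pool.Agent.P.MP_6277db_ag.KEW.G.Cut

/-!
KEW glue: joint kernels of families of endomorphisms, and the reduced presheaves with transfers.
-/

set_option backward.isDefEq.respectTransparency false

noncomputable section

open CategoryTheory Limits AlgebraicGeometry Opposite

namespace Pool.Agent.KEW

variable {C : Type 1} [Category.{0} C] {L : Type 1} [CommRing L]

/-- The joint kernel of a family of maps of presheaves. -/
def jker {P P' : PSh C L} (Λ : Set (P ⟶ P')) : PSh C L where
  obj U := ModuleCat.of L (⨅ φ : Λ, LinearMap.ker (φ.1.app U).hom : Submodule L (P.obj U))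
  map f := ModuleCat.ofHom ((P.map f).hom.restrict fun a ha => (Submodule.mem_iInf _).2 fun φ =>
    (Site_nat φ.1 f.unop a).trans
      ((congrArg (P'.map f) ((Submodule.mem_iInf _).1 ha φ)).trans (map_zero _)))
  map_id U := by
    ext a
    exact Site_id P a.1
  map_comp f g := by
    ext a
    exact Site_res P g.unop f.unop a.1

/-- The inclusion of the joint kernel. -/
def jkerι {P P' : PSh C L} (Λ : Set (P ⟶ P')) : jker Λ ⟶ P where
  app U := ModuleCat.ofHom (⨅ φ : Λ, LinearMap.ker (φ.1.app U).hom : Submodule L (P.obj U)).subtype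
  naturality _ _ _ := rfl

theorem jkerι_injective {P P' : PSh C L} (Λ : Set (P ⟶ P')) (U : C) :
    Function.Injective ((jkerι Λ).app (op U)) := Subtype.val_injective

theorem mem_range_jkerι {P P' : PSh C L} (Λ : Set (P ⟶ P')) {U : C} (a : P.obj (op U)) :
    (∃ b, (jkerι Λ).app (op U) b = a) ↔ ∀ φ ∈ Λ, φ.app (op U) a = 0 :=
  ⟨fun ⟨b, hb⟩ φ hφ => hb ▸ (Submodule.mem_iInf _).1 b.2 ⟨φ, hφ⟩,
    fun h => ⟨⟨a, (Submodule.mem_iInf _).2 fun φ => h φ.1 φ.2⟩, rfl⟩⟩

instance {P P' : PSh C L} (Λ : Set (P ⟶ P')) : Mono (jkerι Λ) := psh_mono _ (jkerι_injective Λ)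

instance [Preadditive C] {P P' : PSh C L} [P.Additive] (Λ : Set (P ⟶ P')) : (jker Λ).Additive :=
  ⟨fun {_ _ f g} => ModuleCat.hom_ext (LinearMap.ext fun a => Subtype.ext
    (congrArg (fun θ => θ.hom a.1) (P.map_add (f := f) (g := g))))⟩

variable {F R S : Type} [CommRing F] [CommRing R] [CommRing S] (m : ℕ) (L)

/-- The presheaf with transfers of the spectrum of an `F`-algebra. -/
abbrev rhoS (a : F →+* R) : PSh (TrS m F) L := rho m (smV F) L (spO a)

/-- Its functoriality. -/
def rhoH {a : F →+* R} {b : F →+* S} (φ : R →+* S) (h : φ.comp a = b) : rhoS L m b ⟶ rhoS L m a :=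
  rhoMap m (smV F) L (Corr.graph m (spH φ h))

/-- The part of `rhoS a` killed by the `F`-endomorphisms in `Λ`. -/
def redP (a : F →+* R) (Λ : Set (R →+* R)) : PSh (TrS m F) L :=
  jker {θ : rhoS L m a ⟶ rhoS L m a | ∃ φ ∈ Λ, ∃ h : φ.comp a = a, θ = rhoH L m φ h}

instance (a : F →+* R) (Λ : Set (R →+* R)) : (redP L m a Λ).Additive :=
  inferInstanceAs (jker _).Additive

end Pool.Agent.KEW
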