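import Pool.Agent.P.MP_6277db_ag.KEW.G.Site
import Pool.Agent.P.MP_6277db_ag.KEW.L1.Cyl

/-!
KEW glue: extension by zero from a sieve.
-/

set_option backward.isDefEq.respectTransparency false

noncomputable section

open CategoryTheory Limits AlgebraicGeometry Opposite

namespace Pool.Agent.KEW

variable {C : Type 1} [Category.{0} C] {L : Type 1} [CommRing L]

/-- A class of objects which is stable under passing to the source of a morphism. -/
structure Siev (C : Type 1) [Category.{0} C] where
  /-- the class -/
  p : C → Prop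
  map : ∀ {V U : C}, (V ⟶ U) → p U → p V

/-- All of `M` if `p` holds, zero otherwise. -/
def cutSub (p : Prop) (M : Type 1) [AddCommGroup M] [Module L M] : Submodule L M where
  carrier := {a | p ∨ a = 0}
  zero_mem' := Or.inr rfl
  add_mem' {a b} ha hb := ha.elim Or.inl fun ha => hb.imp id fun hb => by rw [ha, hb, add_zero]
  smul_mem' c a ha := ha.imp id fun ha => by rw [ha, smul_zero]

theorem cutSub_map {p q : Prop} (h : p → q) {M N : Type 1} [AddCommGroup M] [Module L M]
    [AddCommGroup N] [Module L N] (f : M →ₗ[L] N) (a : M) (ha : a ∈ cutSub (L := L) p M) :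
    f a ∈ cutSub (L := L) q N :=
  Or.imp h (fun ha => by rw [ha, map_zero]) ha

variable (S : Siev C)

/-- The sections over the objects of the sieve, extended by zero. -/
def cutObj (P : PSh C L) : PSh C L where
  obj U := ModuleCat.of L (cutSub (L := L) (S.p U.unop) (P.obj U))
  map f := ModuleCat.ofHom ((P.map f).hom.restrict (cutSub_map (S.map f.unop) _))
  map_id U := by
    ext a
    exact Site_id P a.1
  map_comp f g := by
    ext a
    exact Site_res P g.unop f.unop a.1

variable (L) in
/-- Extension by zero from a sieve. -/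
def cut : PSh C L ⥤ PSh C L where
  obj P := cutObj S P
  map φ :=
    { app := fun U => ModuleCat.ofHom ((φ.app U).hom.restrict (cutSub_map id _))
      naturality := fun _ _ f => ModuleCat.hom_ext (LinearMap.ext fun a =>
        Subtype.ext (Site_nat φ f.unop a.1)) }
  map_id _ := rfl
  map_comp _ _ := rfl

variable (L) in
/-- The inclusion of the extension by zero. -/
def cutι : cut L S ⟶ 𝟭 (PSh C L) where
  app P := { app := fun U => ModuleCat.ofHom (cutSub (L := L) (S.p U.unop) (P.obj U)).subtype
             naturality := fun _ _ _ => rfl }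
  naturality _ _ _ := rfl

variable {S}

theorem cutι_injective (P : PSh C L) (U : C) :
    Function.Injective (((cutι L S).app P).app (op U)) := Subtype.val_injective

theorem cutι_surjective (P : PSh C L) {U : C} (h : S.p U) :
    Function.Surjective (((cutι L S).app P).app (op U)) := fun a => ⟨⟨a, Or.inl h⟩, rfl⟩

theorem cut_eq_zero (P : PSh C L) {U : C} (h : ¬S.p U) (a : ((cut L S).obj P).obj (op U)) :
    a = 0 := Subtype.ext (a.2.resolve_left h)

theorem cutι_map {P P' : PSh C L} (φ : P ⟶ P') (U : C) (a : ((cut L S).obj P).obj (op U)) :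
    ((cutι L S).app P').app (op U) (((cut L S).map φ).app (op U) a) =
      φ.app (op U) (((cutι L S).app P).app (op U) a) := rfl

theorem cutι_res (P : PSh C L) {U V : C} (f : V ⟶ U) (a : ((cut L S).obj P).obj (op U)) :
    ((cutι L S).app P).app (op V) (((cut L S).obj P).map f.op a) =
      P.map f.op (((cutι L S).app P).app (op U) a) := rfl

theorem psh_mono {P P' : PSh C L} (φ : P ⟶ P') (h : ∀ U, Function.Injective (φ.app (op U))) :
    Mono φ :=
  have : ∀ U, Mono (φ.app U) := fun U => (ModuleCat.mono_iff_injective _).2 (h U.unop)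
  NatTrans.mono_of_mono_app φ

theorem psh_epi {P P' : PSh C L} (φ : P ⟶ P') (h : ∀ U, Function.Surjective (φ.app (op U))) :
    Epi φ :=
  have : ∀ U, Epi (φ.app U) := fun U => (ModuleCat.epi_iff_surjective _).2 (h U.unop)
  NatTrans.epi_of_epi_app φ

theorem psh_exact (T : ShortComplex (PSh C L))
    (h : ∀ (U : C) (b : T.X₂.obj (op U)), T.g.app (op U) b = 0 → ∃ a, T.f.app (op U) a = b) :
    T.Exact :=
  sat_exact_of_eval T fun U => (ShortComplex.moduleCat_exact_iff _).2 (h U.unop)

theorem psh_isIso {P P' : PSh C L} (φ : P ⟶ P') (h : ∀ U, Function.Bijective (φ.app (op U))) :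
    IsIso φ :=
  have : ∀ U, IsIso (φ.app U) := fun U => (ConcreteCategory.isIso_iff_bijective _).2 (h U.unop)
  NatIso.isIso_of_isIso_app φ

instance (P : PSh C L) : Mono ((cutι L S).app P) := psh_mono _ (cutι_injective P)

instance : (cut L S).Additive where

theorem cut_shortExact (T : ShortComplex (PSh C L)) (hT : T.ShortExact) :
    (T.map (cut L S)).ShortExact := by
  have := hT.mono_f
  have := hT.epi_g
  refine ShortComplex.ShortExact.mk' (psh_exact _ fun U b hb => ?_) (psh_mono _ fun U a b hab => ?_)
    (psh_epi _ fun U b => ?_)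
  · by_cases hU : S.p U
    · obtain ⟨a, ha⟩ := Site_exact hT.exact b.1 (congrArg Subtype.val hb)
      exact ⟨⟨a, Or.inl hU⟩, Subtype.ext ha⟩
    · exact ⟨0, (map_zero _).trans (cut_eq_zero _ hU b).symm⟩
  · exact Subtype.ext (Site_inj T.f U (congrArg Subtype.val hab))
  · by_cases hU : S.p U
    · obtain ⟨a, ha⟩ := Site_surj T.g U b.1
      exact ⟨⟨a, Or.inl hU⟩, Subtype.ext ha⟩
    · exact ⟨0, (map_zero _).trans (cut_eq_zero _ hU b).symm⟩

instance : IsExact (cut L S) := by
  refine IsExact.mk' _ cut_shortExact fun ι => ?_
  refine preservesColimitsOfShape_of_evaluation _ _ fun U => ?_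
  by_cases hU : S.p U.unop
  · have : IsIso (Functor.whiskerRight (cutι L S) ((evaluation _ _).obj U)) := by
      have : ∀ P, IsIso ((Functor.whiskerRight (cutι L S) ((evaluation _ _).obj U)).app P) :=
        fun P => (ConcreteCategory.isIso_iff_bijective _).2
          ⟨cutι_injective P U.unop, cutι_surjective P hU⟩
      exact NatIso.isIso_of_isIso_app _
    exact preservesColimitsOfShape_of_natIso
      (asIso (Functor.whiskerRight (cutι L S) ((evaluation _ _).obj U))).symm
  · refine Functor.preservesColimitsOfShape_of_isZero _ ((Functor.isZero_iff _).2 fun P => ?_) _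
    have : Subsingleton (((cut L S).obj P).obj U) :=
      ⟨fun a b => (cut_eq_zero P hU a).trans (cut_eq_zero P hU b).symm⟩
    exact ModuleCat.isZero_of_subsingleton (((cut L S).obj P).obj U)

variable {A F : Type} [CommRing A] [CommRing F]

/-- The sieve of the schemes with empty special fibre. -/
def genS (π : A) : Siev (Sm A) := ⟨Gen π, fun f h => h.map f⟩

variable (L) in
/-- Direct image from the generic fibre followed by extension by zero. -/
abbrev JJ (f : A →+* F) (π : A) : PSh (Sm F) L ⥤ PSh (Sm A) L :=
  rs L (bcFun f) ⋙ cut L (genS π)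

end Pool.Agent.KEW
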