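import Pool.Agent.P.MP_6277db_ag.KEW.L7.O1

/-!
KEW glue: the homology of the complex underlying a complex with transfers.
-/

set_option backward.isDefEq.respectTransparency false

noncomputable section

open CategoryTheory Limits AlgebraicGeometry Opposite

namespace Pool.Agent.KEW

open _root_.KEW

variable {A : Type} [CommRing A] {L : Type 1} [CommRing L] {m : ℕ}

/-- The homology of the complex underlying a complex with transfers. -/
def fgtH (K : Ch (TrS m A) L) (q : ℤ) :
    ((mapC (fgt L m A)).obj K).homology q ≅ (fgt L m A).obj (K.homology q) :=
  TW_homologyMapIso (fgt L m A) K q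

end Pool.Agent.KEW
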