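import Pool.Agent.P.MP_6277db_ag.KEW.L7.Rf
import Pool.Agent.P.MP_6277db_ag.KEW.L3.TrL
import Pool.Agent.P.MP_6277db_ag.KEW.L3.TrC
import Pool.Agent.P.MP_6277db_ag.KEW.L6.Defs
import Pool.Agent.P.MP_6277db_ag.KEW.CA.PO

/-!
KEW glue: correspondences on the smooth site and base change of smooth sites.
-/

set_option backward.isDefEq.respectTransparency false

noncomputable section

open CategoryTheory Limits AlgebraicGeometry Opposite

namespace Pool.Agent.KEW

open _root_.KEW

variable {A F : Type} [CommRing A] [CommRing F] {L : Type 1} [CommRing L]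

instance (A : Type) [CommRing A] : SepSite (smV A) := ⟨fun U => U.obj.property.2.2⟩

instance (U : Sm A) : LocallyOfFiniteType ((smV A).obj U).hom := U.obj.property.1

instance (U : Sm A) : QuasiCompact ((smV A).obj U).hom := U.obj.property.2.1

instance (U : Sm A) : Smooth ((smV A).obj U).hom := U.property

/-- Finite correspondences between smooth `A`-schemes. -/
abbrev TrS (m : ℕ) (A : Type) [CommRing A] : Type 1 := Tr m (smV A)

/-- The graph functor of the smooth site. -/
abbrev gamS (m : ℕ) (A : Type) [CommRing A] : Sm A ⥤ TrS m A := gam m (smV A)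

/-- Forgetting transfers. -/
abbrev fgt (L : Type 1) [CommRing L] (m : ℕ) (A : Type) [CommRing A] :
    PSh (TrS m A) L ⥤ PSh (Sm A) L := rs L (gamS m A)

/-- An object of the smooth site. -/
def smMk {X : Scheme.{0}} (p : X ⟶ Spec (.of A)) [Smooth p] [QuasiCompact p] [IsSeparated p] :
    Sm A :=
  ⟨⟨Over.mk p, inferInstanceAs (LocallyOfFiniteType p), inferInstanceAs (QuasiCompact p),
    inferInstanceAs (IsSeparated p)⟩, inferInstanceAs (Smooth p)⟩

/-- A morphism of the smooth site. -/
def smHom {U V : Sm A} (f : (smS A).obj U ⟶ (smS A).obj V)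
    (w : f ≫ ((smV A).obj V).hom = ((smV A).obj U).hom) : U ⟶ V :=
  ObjectProperty.homMk (ObjectProperty.homMk (Over.homMk f w))

@[simp] theorem smS_smHom {U V : Sm A} (f : (smS A).obj U ⟶ (smS A).obj V)
    (w : f ≫ ((smV A).obj V).hom = ((smV A).obj U).hom) : (smS A).map (smHom f w) = f := rfl

theorem sm_ext {U V : Sm A} {f g : U ⟶ V} (h : (smS A).map f = (smS A).map g) : f = g :=
  ObjectProperty.hom_ext _ (ObjectProperty.hom_ext _ (Over.OverMorphism.ext h))

@[reassoc] theorem sm_w {U V : Sm A} (f : U ⟶ V) :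
    (smS A).map f ≫ ((smV A).obj V).hom = ((smV A).obj U).hom := Over.w f.hom.hom

theorem isIso_of_smS {U V : Sm A} (f : U ⟶ V) [IsIso ((smS A).map f)] : IsIso f :=
  ⟨smHom (inv ((smS A).map f)) (by rw [IsIso.inv_comp_eq, sm_w]),
    sm_ext (IsIso.hom_inv_id ((smS A).map f)), sm_ext (IsIso.inv_hom_id ((smS A).map f))⟩

variable (f : A →+* F)

/-- Base change of smooth schemes along a ring homomorphism. -/
def bcFun : Sm A ⥤ Sm F where
  obj U := smMk (pullback.snd ((smV A).obj U).hom (spm f))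
  map φ := smHom (pullback.map _ _ _ _ ((smS A).map φ) (𝟙 _) (𝟙 _)
    ((Category.comp_id _).trans (sm_w φ).symm) (by simp))
    ((pullback.lift_snd _ _ _).trans (Category.comp_id _))
  map_id U := sm_ext (by
    rw [smS_smHom, (smS F).map_id]
    refine pullback.hom_ext ?_ ?_
    · rw [pullback.lift_fst, (smS A).map_id]
      exact (Category.comp_id _).trans (Category.id_comp _).symm
    · rw [pullback.lift_snd]
      exact (Category.comp_id _).trans (Category.id_comp _).symm)
  map_comp φ ψ := sm_ext (by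
    rw [(smS F).map_comp, smS_smHom, smS_smHom, smS_smHom]
    refine pullback.hom_ext ?_ ?_
    · simp
    · simp)

/-- The projection from the base change. -/
def bcπ (U : Sm A) : (smS F).obj ((bcFun f).obj U) ⟶ (smS A).obj U :=
  pullback.fst ((smV A).obj U).hom (spm f)

theorem bc_isPullback (U : Sm A) :
    IsPullback (bcπ f U) ((smV F).obj ((bcFun f).obj U)).hom ((smV A).obj U).hom (spm f) :=
  IsPullback.of_hasPullback _ _

@[reassoc] theorem bc_map_π {U V : Sm A} (φ : U ⟶ V) :
    (smS F).map ((bcFun f).map φ) ≫ bcπ f V = bcπ f U ≫ (smS A).map φ :=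
  pullback.lift_fst _ _ _

theorem bc_map_isPullback {U V : Sm A} (φ : U ⟶ V) :
    IsPullback (bcπ f U) ((smS F).map ((bcFun f).map φ)) ((smS A).map φ) (bcπ f V) :=
  IsPullback.of_bot (by rw [sm_w, sm_w]; exact bc_isPullback f U) (bc_map_π f φ).symm
    (bc_isPullback f V)

/-- Base change as a cartesian functor. -/
def bcF : CartF (smV A) (smV F) (spm f) (𝟙 _) where
  F := bcFun f
  β U := ⟨bcπ f U, ((smV F).obj ((bcFun f).obj U)).hom, Category.comp_id _, bc_isPullback f U⟩
  map_π φ := bc_map_π f φ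
  map_q φ := sm_w ((bcFun f).map φ)

/-- Base change of correspondences. -/
abbrev bcTr (m : ℕ) : TrS m A ⥤ TrS m F := (bcF f).tr m

/-- Direct image commutes with forgetting transfers. -/
def fgtIso (L : Type 1) [CommRing L] (m : ℕ) :
    rs L (bcTr f m) ⋙ fgt L m A ≅ fgt L m F ⋙ rs L (bcFun f) :=
  (Functor.whiskeringLeft _ _ _).mapIso (NatIso.op ((bcF f).gamIso m)).symm

theorem fgtIso_hom_app_app (m : ℕ) (P : PSh (TrS m F) L) (U : (Sm A)ᵒᵖ) :
    ((fgtIso f L m).hom.app P).app U = 𝟙 _ := P.map_id _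

variable {f}

/-- The universal property of base change. -/
def bcLift {U : Sm A} {W : Sm F} (p : (smS F).obj W ⟶ (smS A).obj U)
    (w : p ≫ ((smV A).obj U).hom = ((smV F).obj W).hom ≫ spm f) : W ⟶ (bcFun f).obj U :=
  smHom (pullback.lift p _ w) (pullback.lift_snd _ _ _)

@[reassoc] theorem bcLift_π {U : Sm A} {W : Sm F} (p : (smS F).obj W ⟶ (smS A).obj U)
    (w : p ≫ ((smV A).obj U).hom = ((smV F).obj W).hom ≫ spm f) :
    (smS F).map (bcLift p w) ≫ bcπ f U = p := pullback.lift_fst _ _ _

theorem bc_ext {U : Sm A} {W : Sm F} {φ ψ : W ⟶ (bcFun f).obj U}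
    (h : (smS F).map φ ≫ bcπ f U = (smS F).map ψ ≫ bcπ f U) : φ = ψ :=
  sm_ext ((bc_isPullback f U).hom_ext h ((sm_w φ).trans (sm_w ψ).symm))

theorem isIso_bcLift {U : Sm A} {W : Sm F} {p : (smS F).obj W ⟶ (smS A).obj U}
    (h : IsPullback p ((smV F).obj W).hom ((smV A).obj U).hom (spm f)) : IsIso (bcLift p h.w) := by
  have : IsIso ((smS F).map (bcLift p h.w)) := inferInstanceAs (IsIso h.isoPullback.hom)
  exact isIso_of_smS _

section spec

variable {B B' R R' : Type} [CommRing B] [CommRing B'] [CommRing R] [CommRing R'] {β : A →+* B}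
  {β' : A →+* B'} {b : F →+* R} {b' : F →+* R'}

/-- The map from the spectrum of an `F`-algebra to the base change of a spectrum. -/
def toBc (hβ : EP β) (hb : EP b) (i : B →+* R) (w : i.comp β = b.comp f) :
    spE b hb ⟶ (bcFun f).obj (spE β hβ) :=
  bcLift (spm i) ((spm_comp β i).trans ((congrArg spm w).trans (spm_comp f b).symm))

theorem toBc_π (hβ : EP β) (hb : EP b) (i : B →+* R) (w : i.comp β = b.comp f) :
    (smS F).map (toBc hβ hb i w) ≫ bcπ f _ = spm i := bcLift_π _ _

theorem isIso_toBc (hβ : EP β) (hb : EP b) {i : B →+* R} (h : IsPO β f i b) :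
    IsIso (toBc hβ hb i h.comm) :=
  isIso_bcLift (U := spE β hβ) (W := spE b hb) (isPullback_SpecMap_of_isPushout _ _ _ _ h)

theorem toBc_nat (hβ : EP β) (hβ' : EP β') (hb : EP b) (hb' : EP b') (i : B →+* R)
    (i' : B' →+* R') (w : i.comp β = b.comp f) (w' : i'.comp β' = b'.comp f) (φ : B →+* B')
    (g : R →+* R') (hφ : φ.comp β = β') (hg : g.comp b = b') (e : g.comp i = i'.comp φ) :
    toBc hβ' hb' i' w' ≫ (bcFun f).map (spM hβ hβ' φ hφ) = spM hb hb' g hg ≫ toBc hβ hb i w := by
  refine bc_ext ?_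
  rw [Functor.map_comp, Functor.map_comp, Category.assoc, Category.assoc, bc_map_π, toBc_π,
    ← Category.assoc, toBc_π]
  exact (spm_comp φ i').trans ((congrArg spm e.symm).trans (spm_comp i g).symm)

open Classical in
/-- The comparison map from the sections of a direct image. -/
def fcmpC (P : PSh (Sm F) L) (i : B →+* R) (w : i.comp β = b.comp f) :
    (rf ((rs L (bcFun f)).obj P)).obj β →+ (rf P).obj b :=
  if hβ : EP β then
    { toFun := fun x hb => P.map (toBc hβ hb.down i w).op (rfE _ hβ x)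
      map_zero' := funext fun _ => by rw [map_zero, map_zero]; rfl
      map_add' := fun _ _ => funext fun _ => by rw [map_add, map_add]; rfl }
  else 0

theorem rfE_fcmpC (P : PSh (Sm F) L) (i : B →+* R) (w : i.comp β = b.comp f) (hβ : EP β)
    (hb : EP b) (x : (rf ((rs L (bcFun f)).obj P)).obj β) :
    rfE P hb (fcmpC P i w x) = P.map (toBc hβ hb i w).op (rfE _ hβ x) := by
  rw [fcmpC, dif_pos hβ]
  rfl

end spec

variable (f) in
/-- The sections of a direct image are the sections on the base change. -/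
def fcmp (P : PSh (Sm F) L) : L6.FCmp f (rf ((rs L (bcFun f)).obj P)) (rf P) where
  c i hi := fcmpC P i hi.comm
  bij i hi hβ := by
    have hb := hi.ep hβ
    have := isIso_toBc hβ hb hi
    have h1 : Function.Bijective (P.map (toBc hβ hb i hi.comm).op) :=
      (ConcreteCategory.isIso_iff_bijective _).1 inferInstance
    have e : ⇑(fcmpC P i hi.comm) = (rfE P hb).symm ∘ P.map (toBc hβ hb i hi.comm).op ∘
        rfE ((rs L (bcFun f)).obj P) hβ := funext fun x => by
      rw [Function.comp_apply, AddEquiv.eq_symm_apply, rfE_fcmpC P i hi.comm hβ hb]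
      rfl
    rw [e]
    exact (rfE P hb).symm.bijective.comp (h1.comp (rfE _ hβ).bijective)
  nat i i' hi hi' φ g hφ hg e hβ hβ' x := by
    have hb := hi.ep hβ
    have hb' := hi'.ep hβ'
    refine (rfE P hb').injective ?_
    rw [rfE_fcmpC P i' hi'.comm hβ' hb', rfE_map _ φ hφ hβ hβ', rfE_map P g hg hb hb',
      rfE_fcmpC P i hi.comm hβ hb]
    refine (Site_res P _ _ _).symm.trans (Eq.trans ?_ (Site_res P _ _ _))
    exact congrArg (fun θ => P.map (Quiver.Hom.op θ) (rfE _ hβ x))
      (toBc_nat hβ hβ' hb hb' i i' hi.comm hi'.comm φ g hφ hg e)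

theorem st_bc (U : Sm A) :
    (bcπ f U).appTop.hom.comp (st U) = (st ((bcFun f).obj U)).comp f := by
  have e : bcπ f U ≫ U.obj.obj.hom = ((bcFun f).obj U).obj.obj.hom ≫ spm f := (bc_isPullback f U).w
  have h := congrArg (fun φ => ((Scheme.ΓSpecIso (.of A)).inv ≫ Scheme.Hom.appTop φ).hom) e
  simp only [Scheme.Hom.comp_appTop] at h
  refine h.trans ?_
  rw [← Category.assoc, ← Scheme.ΓSpecIso_inv_naturality]
  rfl

theorem st_spE {B : Type} [CommRing B] {β : A →+* B} (hβ : EP β) :
    st (spE β hβ) = (Scheme.ΓSpecIso (.of B)).inv.hom.comp β :=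
  congrArg CommRingCat.Hom.hom (Scheme.ΓSpecIso_inv_naturality (CommRingCat.ofHom β)).symm

theorem gen_spE_iff {B : Type} [CommRing B] {β : A →+* B} (hβ : EP β) (π : A) :
    Gen π (spE β hβ) ↔ IsUnit (β π) := by
  rw [Gen, st_spE]
  exact isUnit_map_iff (Scheme.ΓSpecIso (.of B)).symm.commRingCatIsoToRingEquiv _

end Pool.Agent.KEW
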