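import Pool.Agent.P.MP_6277db_ag.KEW.L7.Br4
import Pool.Agent.P.MP_6277db_ag.KEW.G.Site

/-!
KEW glue, row PTS: locally zero sections on rings and on schemes.

Hints.
* `locally_spE_of_ev`: `spM ha hg g rfl` is etale (`HasRingHomProperty.Spec_iff`); the lift `x'` of the point gives
  `Spec κ(y) ⟶ Spec D` over `fromSpecResidueField y`; use `Geom_res_of_sec` (L2a/Geom.lean).
* `dies_of_locZeroEl`: `ev_of_locally`, `rfE_map`.
* `locZero_iff_dies`: `locZero_iff`, `locally_ep`, `Locally.bind`.
-/

set_option backward.isDefEq.respectTransparency false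

noncomputable section

open CategoryTheory Limits AlgebraicGeometry Opposite

namespace Pool.Agent.KEW

open _root_.KEW

variable {A R K : Type} [CommRing A] [CommRing R] [Field K] {L : Type 1} [CommRing L]
  {a : A →+* R} {P : PSh (Sm A) L}

theorem locally_spE_of_ev (ha : EP a) (y : (smS A).obj (spE a ha))
    {p : ∀ V : Sm A, (V ⟶ spE a ha) → Prop}
    (h : Ev ((evp (spE a ha) y).comp (unE ha)) fun _ _ g =>
      ∀ hg : EP (g.comp a), p (spE (g.comp a) hg) (spM ha hg g rfl)) :
    Locally (smS A) (spE a ha) y p := by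
  obtain ⟨D, _, g, x', hg, hx, hΦ⟩ := h
  have hE : EP (g.comp a) := S7.ep_etale ha hg
  have he : Etale (Spec.map (CommRingCat.ofHom g)) := HasRingHomProperty.Spec_iff.2 hg
  have h0 : (Spec (.of R)).fromSpecResidueField y ≫ (Spec (.of R)).toSpecΓ =
      Spec.map ((Spec (.of R)).Γevaluation y) := by
    rw [Scheme.fromSpecResidueField, Category.assoc, Scheme.fromSpecStalk_toSpecΓ, ← Spec.map_comp]
    rfl
  have hc : Spec.map (CommRingCat.ofHom x') ≫ Spec.map (CommRingCat.ofHom g) =
      (Spec (.of R)).fromSpecResidueField y := by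
    rw [← Spec.map_comp, ← CommRingCat.ofHom_comp, hx]
    change Spec.map ((Scheme.ΓSpecIso (.of R)).inv ≫ (Spec (.of R)).Γevaluation y) = _
    rw [Spec.map_comp, ← h0, Category.assoc, toSpecΓ_SpecMap_ΓSpecIso_inv, Category.comp_id]
  obtain ⟨h1, h2⟩ := Geom_res_of_sec (Spec.map (CommRingCat.ofHom g)) y
    (Spec.map (CommRingCat.ofHom x')) hc default
  exact ⟨spE _ hE, spM ha hE g rfl, _, ⟨he, h1, h2⟩, hΦ hE⟩

variable [IsNoetherianRing A]

theorem dies_of_locZeroEl (ha : EP a) {z : (rf P).obj a} (h : LocZeroEl (smS A) (rfE P ha z))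
    (x : R →+* K) : (rf P).Dies x z := by
  refine (ev_of_locally ha x (p := fun V f => P.map f.op (rfE P ha z) = 0)
    (fun V f W g h => by rw [Site_res, h, map_zero]) h).mono ?_
  rintro D _ g - ⟨hg, h0⟩
  refine (rfE P hg).injective ?_
  rw [rfE_map P g rfl ha hg, h0, map_zero]

theorem locZeroEl_of_dies (ha : EP a) {z : (rf P).obj a}
    (h : ∀ (K : Type) [Field K] (x : R →+* K), (rf P).Dies x z) :
    LocZeroEl (smS A) (rfE P ha z) := by
  intro y
  refine locally_spE_of_ev ha y ((h _ ((evp _ y).comp (unE ha))).mono ?_)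
  intro D _ g _ h0 hg
  rw [← rfE_map P g rfl ha hg, h0, map_zero]

theorem locZero_iff_dies (P : PSh (Sm A) L) : LocZero (smS A) P ↔
    ∀ (R K : Type) [CommRing R] [Field K] (a : A →+* R) (x : R →+* K), EP a →
      ∀ z : (rf P).obj a, (rf P).Dies x z := by
  refine ⟨fun h R K _ _ a x ha z => dies_of_locZeroEl ha (h.el _) x, fun h => ?_⟩
  refine (locZero_iff P).2 fun U z x => (locally_ep U x).bind ?_
  rintro V f ⟨R, _, a, ha, rfl⟩ y
  refine (locZeroEl_of_dies ha (z := (rfE P ha).symm (P.map f.op z))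
    (fun K _ x => h R K a x ha _) y).mono fun W g hg => ?_
  rw [Site_res]
  rwa [AddEquiv.apply_symm_apply] at hg

/-- A presheaf supported on the generic fibre is locally zero if its sections die at the points of
the generic fibre. -/
theorem locZero_cut_of_dies (π : A) (P : PSh (Sm A) L)
    (h : ∀ (R K : Type) [CommRing R] [Field K] (a : A →+* R) (x : R →+* K), EP a → x (a π) ≠ 0 →
      ∀ z : (rf P).obj a, (rf P).Dies x z) (U : Sm A) (hU : Gen π U) (z : P.obj (op U)) :
    LocZeroEl (smS A) z := by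
  refine fun x => (locally_ep U x).bind ?_
  rintro V f ⟨R, _, a, ha, rfl⟩ y
  have hu : IsUnit (a π) := (gen_spE_iff ha π).1 (hU.map f)
  refine (locZeroEl_of_dies ha (z := (rfE P ha).symm (P.map f.op z))
    (fun K _ x => h R K a x ha (hu.map x).ne_zero _) y).mono fun W g hg => ?_
  rw [Site_res]
  rwa [AddEquiv.apply_symm_apply] at hg

end Pool.Agent.KEW
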