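import Pool.Agent.P.MP_6277db_ag.KEW.L1.Cyl

/-!
KEW glue: thick classes of complexes.
-/

set_option backward.isDefEq.respectTransparency false

noncomputable section

open CategoryTheory Limits Opposite

namespace Pool.Agent.KEW

variable {C : Type 1} [Category.{0} C] {C' : Type 1} [Category.{0} C'] {L : Type 1} [CommRing L]

/-- A class of complexes containing `Loc G` with the two out of three property. -/
structure Thick (G : Ch C L → Prop) (K : Ch C L → Prop) : Prop where
  loc : ∀ X, Loc G X → K X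
  left : ∀ S : ShortComplex (Ch C L), S.ShortExact → K S.X₂ → K S.X₃ → K S.X₁
  mid : ∀ S : ShortComplex (Ch C L), S.ShortExact → K S.X₁ → K S.X₃ → K S.X₂
  right : ∀ S : ShortComplex (Ch C L), S.ShortExact → K S.X₁ → K S.X₂ → K S.X₃

variable {G : Ch C L → Prop} {G' : Ch C' L → Prop} {K : Ch C L → Prop}

theorem thick_orth_right (G : Ch C L → Prop) (A : Ch C L) : Thick G fun X => Orth G A X :=
  ⟨fun _ h => Orth.of_loc_right A h, fun _ hS => Orth.right₁ hS, fun _ hS => Orth.right₂ hS,
    fun _ hS => Orth.right₃ hS⟩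

theorem thick_orth_left (G : Ch C L → Prop) (B : Ch C L) : Thick G fun X => Orth G X B :=
  ⟨fun _ h => Orth.of_loc_left h B, fun _ hS => Orth.left₁ hS, fun _ hS => Orth.left₂ hS,
    fun _ hS => Orth.left₃ hS⟩

theorem thick_loc (G : Ch C L → Prop) : Thick G (Loc G) :=
  ⟨fun _ h => h, Loc.left, Loc.mid, Loc.right⟩

namespace Thick

/-- The preimage of a thick class under an exact functor. -/
theorem comap {K' : Ch C' L → Prop} (h : Thick G' K') (F : PSh C L ⥤ PSh C' L) [IsExact F]
    (hF : ∀ X, G X → Loc G' ((mapC F).obj X)) : Thick G fun X => K' ((mapC F).obj X) :=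
  ⟨fun _ hX => h.loc _ (Loc.map F hF hX), fun _ hS => h.left _ (shortExact_mapC F hS),
    fun _ hS => h.mid _ (shortExact_mapC F hS), fun _ hS => h.right _ (shortExact_mapC F hS)⟩

variable (h : Thick G K)
include h

theorem shift_of_wg {X Y : Ch C L} {f : X ⟶ Y} (hf : WG G f) : K Y ↔ K (X⟦(1 : ℤ)⟧) :=
  ⟨fun hY => h.right _ (cone_shortExact f) hY (h.loc _ hf),
    fun hX => h.left _ (cone_shortExact f) (h.loc _ hf) hX⟩

theorem shift_one_iff (X : Ch C L) : K (X⟦(1 : ℤ)⟧) ↔ K X :=
  (h.shift_of_wg (WG.of_isIso (𝟙 X))).symm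

/-- A thick class is invariant under `W`. -/
theorem wg_iff {X Y : Ch C L} {f : X ⟶ Y} (hf : WG G f) : K X ↔ K Y :=
  (h.shift_one_iff X).symm.trans (h.shift_of_wg hf).symm

theorem iso_iff {X Y : Ch C L} (e : X ≅ Y) : K X ↔ K Y := h.wg_iff (WG.of_isIso e.hom)

theorem of_iso {X Y : Ch C L} (e : X ≅ Y) (hX : K X) : K Y := (h.iso_iff e).1 hX

theorem of_isZero {X : Ch C L} (hX : IsZero X) : K X := h.loc _ (Loc.of_isZero hX)

theorem cone {X Y : Ch C L} (f : X ⟶ Y) (hX : K X) (hY : K Y) :
    K (CochainComplex.mappingCone f) :=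
  h.mid _ (cone_shortExact f) hY ((h.shift_one_iff X).2 hX)

theorem src_of_cone {X Y : Ch C L} (f : X ⟶ Y) (hY : K Y)
    (hf : K (CochainComplex.mappingCone f)) : K X :=
  (h.shift_one_iff X).1 (h.right _ (cone_shortExact f) hY hf)

theorem tgt_of_cone {X Y : Ch C L} (f : X ⟶ Y) (hX : K X)
    (hf : K (CochainComplex.mappingCone f)) : K Y :=
  h.left _ (cone_shortExact f) hf ((h.shift_one_iff X).2 hX)

theorem shift_iff (X : Ch C L) (n : ℤ) : K (X⟦n⟧) ↔ K X := by
  induction n using Int.induction_on with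
  | zero => exact h.iso_iff ((shiftFunctorZero _ ℤ).app X)
  | succ n ih =>
    rw [← ih, ← h.shift_one_iff (X⟦(n : ℤ)⟧)]
    exact h.iso_iff ((shiftFunctorAdd _ (n : ℤ) 1).app X)
  | pred n ih =>
    rw [← ih, ← h.shift_one_iff (X⟦(-n - 1 : ℤ)⟧)]
    exact h.iso_iff ((shiftFunctorAdd' _ (-n - 1 : ℤ) 1 (-n) (by omega)).app X).symm

theorem sgl_iff (F : PSh C L) (p q : ℤ) : K ((sgl p).obj F) ↔ K ((sgl q).obj F) :=
  (h.iso_iff ((sglShiftIso (q - p) p q (by omega)).app F)).symm.trans (h.shift_iff _ _)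

/-- For a short exact sequence the cone of the first map and the cokernel are equivalent. -/
theorem cone_f_iff {S : ShortComplex (Ch C L)} (hS : S.ShortExact) :
    K (CochainComplex.mappingCone S.f) ↔ K S.X₃ :=
  have := CochainComplex.mappingCone.quasiIso_descShortComplex hS
  h.wg_iff (WG.of_quasiIso (CochainComplex.mappingCone.descShortComplex S))

/-- The octahedral axiom: two out of three for the cones of `f`, `g` and `f ≫ g`. -/
theorem cone_comp_aux {X Y Z : Ch C L} (f : X ⟶ Y) (g : Y ⟶ Z) :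
    K (CochainComplex.mappingCone g) ↔ K (CochainComplex.mappingCone
      (CochainComplex.mappingConeCompTriangle f g).mor₁) :=
  have := (CochainComplex.mappingConeCompHomotopyEquiv f g).quasiIso_hom
  h.wg_iff (WG.of_quasiIso (CochainComplex.mappingConeCompHomotopyEquiv f g).hom)

theorem cone_comp {X Y Z : Ch C L} {f : X ⟶ Y} {g : Y ⟶ Z}
    (hf : K (CochainComplex.mappingCone f)) (hg : K (CochainComplex.mappingCone g)) :
    K (CochainComplex.mappingCone (f ≫ g)) :=
  h.tgt_of_cone (CochainComplex.mappingConeCompTriangle f g).mor₁ hf ((h.cone_comp_aux f g).1 hg)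

theorem cone_of_postcomp {X Y Z : Ch C L} {f : X ⟶ Y} {g : Y ⟶ Z}
    (hg : K (CochainComplex.mappingCone g)) (hfg : K (CochainComplex.mappingCone (f ≫ g))) :
    K (CochainComplex.mappingCone f) :=
  h.src_of_cone (CochainComplex.mappingConeCompTriangle f g).mor₁ hfg ((h.cone_comp_aux f g).1 hg)

theorem cone_of_precomp {X Y Z : Ch C L} {f : X ⟶ Y} {g : Y ⟶ Z}
    (hf : K (CochainComplex.mappingCone f)) (hfg : K (CochainComplex.mappingCone (f ≫ g))) :
    K (CochainComplex.mappingCone g) :=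
  (h.cone_comp_aux f g).2 (h.cone (CochainComplex.mappingConeCompTriangle f g).mor₁ hf hfg)

/-- Cones of parallel sides of a square whose other sides are in `W`. -/
theorem cone_iff_of_sq {X Y X' Y' : Ch C L} (f : X ⟶ Y) (f' : X' ⟶ Y') {a : X ⟶ X'} {b : Y ⟶ Y'}
    (w : f ≫ b = a ≫ f') (ha : WG G a) (hb : WG G b) :
    K (CochainComplex.mappingCone f) ↔ K (CochainComplex.mappingCone f') :=
  h.wg_iff (wg_cone_map f f' a b w ha hb)

/-- For a short exact sequence the cone of the second map and the kernel are equivalent. -/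
theorem cone_g_iff {S : ShortComplex (Ch C L)} (hS : S.ShortExact) :
    K (CochainComplex.mappingCone S.g) ↔ K S.X₁ := by
  have := CochainComplex.mappingCone.quasiIso_descShortComplex hS
  rw [← h.cone_iff_of_sq (CochainComplex.mappingCone.inr S.f) S.g (a := 𝟙 _)
    (b := CochainComplex.mappingCone.descShortComplex S) (by simp) (WG.of_isIso _)
    (WG.of_quasiIso _), ← h.shift_one_iff S.X₁]
  exact h.cone_f_iff (cone_shortExact S.f)

end Thick

end Pool.Agent.KEW
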